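import Mathlib

/-!
# MP_8c0c42_lc: arithmetic of the map of Antihydra

`S c n` is a relation closed under `(c, 2m) → (c+2, 3m+2)`, `(c+1, 2m+1) → (c, 3m+3)`, without `(0, 2m+1)`.
-/

set_option autoImplicit false

namespace Pool.Agent.Helper31.BB6

/-- closed under the Antihydra map, no halting pair -/
structure Clo (S : ℕ → ℕ → Prop) : Prop where
  he : ∀ c m, 1 ≤ m → S c (2 * m) → S (c + 2) (3 * m + 2)
  ho : ∀ c m, 1 ≤ m → S (c + 1) (2 * m + 1) → S c (3 * m + 3)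
  hh : ∀ m, 1 ≤ m → ¬ S 0 (2 * m + 1)

/-- 3 is invertible modulo powers of two -/
lemma exists_three_mul (r K : ℕ) : ∃ m, 3 * m ≡ r [MOD 2 ^ K] := by
  have h : Nat.Coprime 3 (2 ^ K) := Nat.Coprime.pow_right K (by norm_num)
  obtain ⟨m, hm⟩ := Nat.exists_mul_mod_eq_of_coprime r h (by positivity)
  exact ⟨m, hm.2⟩

lemma exists_three_mul_add (r a K : ℕ) : ∃ m, 3 * m + a ≡ r [MOD 2 ^ K] := by
  obtain ⟨m, hm⟩ := exists_three_mul (r + (2 ^ K - 1) * a) K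
  refine ⟨m, ?_⟩
  have h1 : 3 * m + a ≡ r + (2 ^ K - 1) * a + a [MOD 2 ^ K] := Nat.ModEq.add_right a hm
  refine h1.trans ?_
  have h2 : 1 ≤ 2 ^ K := Nat.one_le_two_pow
  have h3 : r + (2 ^ K - 1) * a + a = r + 2 ^ K * a := by
    obtain ⟨x, hx⟩ : ∃ x, 2 ^ K = x + 1 := ⟨2 ^ K - 1, by omega⟩
    rw [hx, Nat.add_sub_cancel]
    ring
  rw [h3]
  unfold Nat.ModEq
  rw [Nat.add_mul_mod_self_left]

/-- parity and halving of a congruence modulo `2^(K+1)` -/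
lemma half_even {n' μ K : ℕ} (h : n' ≡ 2 * μ [MOD 2 ^ (K + 1)]) : ∃ μ', n' = 2 * μ' ∧ μ' ≡ μ [MOD 2 ^ K] := by
  have h2 : n' ≡ 2 * μ [MOD 2] := Nat.ModEq.of_dvd (Dvd.intro_left (2 ^ K) rfl) h
  have h3 : n' % 2 = 0 := by
    have := h2; unfold Nat.ModEq at this; omega
  refine ⟨n' / 2, by omega, ?_⟩
  have h4 : 2 * (n' / 2) ≡ 2 * μ [MOD 2 * 2 ^ K] := by
    have h5 : 2 * (n' / 2) = n' := by omega
    rw [h5]
    rwa [pow_succ, mul_comm] at h
  exact Nat.ModEq.mul_left_cancel' (by norm_num) h4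

lemma half_odd {n' μ K : ℕ} (h : n' ≡ 2 * μ + 1 [MOD 2 ^ (K + 1)]) : ∃ μ', n' = 2 * μ' + 1 ∧ μ' ≡ μ [MOD 2 ^ K] := by
  have h2 : n' ≡ 2 * μ + 1 [MOD 2] := Nat.ModEq.of_dvd (Dvd.intro_left (2 ^ K) rfl) h
  have h3 : n' % 2 = 1 := by
    have := h2; unfold Nat.ModEq at this; omega
  refine ⟨n' / 2, by omega, ?_⟩
  have h4 : 2 * (n' / 2) + 1 ≡ 2 * μ + 1 [MOD 2 * 2 ^ K] := by
    have h5 : 2 * (n' / 2) + 1 = n' := by omega
    rw [h5]
    rwa [pow_succ, mul_comm] at h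
  exact Nat.ModEq.mul_left_cancel' (by norm_num) (Nat.ModEq.add_right_cancel' 1 h4)

section
variable {S : ℕ → ℕ → Prop} (hS : Clo S)
include hS

/-- for every `c` a whole residue class modulo a power of two is missing in the section at `c` -/
lemma escape0 (c : ℕ) : ∃ r K, ∀ n', 2 ≤ n' → n' ≡ r [MOD 2 ^ K] → ¬ S c n' := by
  induction c with
  | zero =>
    refine ⟨2 * 0 + 1, 0 + 1, fun n' hn' h => ?_⟩
    obtain ⟨μ, rfl, -⟩ := half_odd h
    exact hS.hh μ (by omega)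
  | succ c ih =>
    obtain ⟨r, K, hr⟩ := ih
    obtain ⟨μ, hμ⟩ := exists_three_mul_add r 3 K
    refine ⟨2 * μ + 1, K + 1, fun n' hn' h hs => ?_⟩
    obtain ⟨μ', rfl, h'⟩ := half_odd h
    have h1 := hS.ho c μ' (by omega) hs
    refine hr _ (by omega) ?_ h1
    exact ((h'.mul_left 3).add_right 3).trans hμ

/-- every residue class modulo a power of two contains a residue class modulo a larger power of two that is missing
in the section at `c` (the section is nowhere dense in the 2-adic topology) -/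
lemma escape (s : ℕ) : ∀ c n₀, ∃ m K, ∀ n', 2 ≤ n' → n' ≡ n₀ + 2 ^ s * m [MOD 2 ^ K] → ¬ S c n' := by
  induction s with
  | zero =>
    intro c n₀
    obtain ⟨r, K, hr⟩ := escape0 hS c
    refine ⟨r + (2 ^ K - 1) * n₀, K, fun n' hn' h => hr n' hn' (h.trans ?_)⟩
    have h2 : 1 ≤ 2 ^ K := Nat.one_le_two_pow
    have h3 : n₀ + 2 ^ 0 * (r + (2 ^ K - 1) * n₀) = r + 2 ^ K * n₀ := by
      obtain ⟨x, hx⟩ : ∃ x, 2 ^ K = x + 1 := ⟨2 ^ K - 1, by omega⟩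
      rw [hx, Nat.add_sub_cancel]
      ring
    rw [h3]
    unfold Nat.ModEq
    rw [Nat.add_mul_mod_self_left]
  | succ s ih =>
    intro c n₀
    rcases Nat.even_or_odd' n₀ with ⟨μ, rfl | rfl⟩
    · obtain ⟨m₁, K, h1⟩ := ih (c + 2) (3 * μ + 2)
      obtain ⟨m, hm⟩ := exists_three_mul m₁ K
      refine ⟨m, K + 1, fun n' hn' h hs => ?_⟩
      have h2 : 2 * μ + 2 ^ (s + 1) * m = 2 * (μ + 2 ^ s * m) := by ring
      rw [h2] at h
      obtain ⟨μ', rfl, h'⟩ := half_even h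
      have h3 := hS.he c μ' (by omega) hs
      refine h1 _ (by omega) ?_ h3
      have h4 := (h'.mul_left 3).add_right 2
      refine h4.trans ?_
      have h5 : 3 * (μ + 2 ^ s * m) + 2 = 3 * μ + 2 + 2 ^ s * (3 * m) := by ring
      rw [h5]
      exact (hm.mul_left (2 ^ s)).add_left _
    · cases c with
      | zero =>
        refine ⟨0, 0 + 1, fun n' hn' h => ?_⟩
        rw [mul_zero, add_zero] at h
        obtain ⟨μ', rfl, -⟩ := half_odd h
        exact hS.hh μ' (by omega)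
      | succ c =>
        obtain ⟨m₁, K, h1⟩ := ih c (3 * μ + 3)
        obtain ⟨m, hm⟩ := exists_three_mul m₁ K
        refine ⟨m, K + 1, fun n' hn' h hs => ?_⟩
        have h2 : 2 * μ + 1 + 2 ^ (s + 1) * m = 2 * (μ + 2 ^ s * m) + 1 := by ring
        rw [h2] at h
        obtain ⟨μ', rfl, h'⟩ := half_odd h
        have h3 := hS.ho c μ' (by omega) hs
        refine h1 _ (by omega) ?_ h3
        have h4 := (h'.mul_left 3).add_right 3
        refine h4.trans ?_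
        have h5 : 3 * (μ + 2 ^ s * m) + 3 = 3 * μ + 3 + 2 ^ s * (3 * m) := by ring
        rw [h5]
        exact (hm.mul_left (2 ^ s)).add_left _

end

/-! ### geometric progressions are 2-adically dense in a class -/

/-- `y t = δ (1 + q + ... + q^(t-1))` -/
def ge (q δ : ℕ) : ℕ → ℕ
  | 0 => 0
  | t + 1 => ge q δ t + q ^ t * δ

lemma ge_add (q δ j t : ℕ) : ge q δ (j + t) = ge q δ j + q ^ j * ge q δ t := by
  induction t with
  | zero => simp [ge]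
  | succ t ih =>
    rw [← add_assoc, ge, ih, ge]
    ring

lemma ge_two_pow {q δ : ℕ} (hq : Odd q) (hδ : 1 ≤ δ) :
    ∃ g, ∀ i, ∃ o, Odd o ∧ ge q δ (2 ^ (i + 1)) = 2 ^ (g + i) * o := by
  have h0 : ge q δ 2 ≠ 0 := by
    simp only [ge]
    simp
    omega
  obtain ⟨g, o, ho, h1⟩ := Nat.exists_eq_two_pow_mul_odd h0
  refine ⟨g, fun i => ?_⟩
  induction i with
  | zero => exact ⟨o, ho, by simpa using h1⟩
  | succ i ih =>
    obtain ⟨o', ho', h2⟩ := ih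
    have h3 : (2 : ℕ) ^ (i + 1 + 1) = 2 ^ (i + 1) + 2 ^ (i + 1) := by ring
    rw [h3, ge_add, h2]
    obtain ⟨x, hx⟩ : ∃ x, q ^ 2 ^ (i + 1) = 4 * x + 1 := by
      have h4 : Odd (q ^ 2 ^ i) := hq.pow
      obtain ⟨z, hz⟩ := h4
      refine ⟨z ^ 2 + z, ?_⟩
      rw [pow_succ, pow_mul, hz]
      ring
    refine ⟨(2 * x + 1) * o', ?_, ?_⟩
    · exact (odd_two_mul_add_one x).mul ho'
    · rw [hx]
      ring

lemma ge_dense {q δ : ℕ} (hq : Odd q) (hδ : 1 ≤ δ) (x₀ : ℕ) :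
    ∃ g, ∀ m i, ∃ j, x₀ + ge q δ j ≡ x₀ + 2 ^ g * m [MOD 2 ^ (g + i)] := by
  obtain ⟨g, hg⟩ := ge_two_pow hq hδ
  refine ⟨g, fun m i => ?_⟩
  induction i with
  | zero =>
    refine ⟨0, ?_⟩
    simp only [ge, add_zero]
    unfold Nat.ModEq
    rw [Nat.add_mul_mod_self_left]
  | succ i ih =>
    obtain ⟨j, hj⟩ := ih
    obtain ⟨o, ho, h1⟩ := hg i
    have hj' : ((2 ^ (g + i) : ℕ) : ℤ) ∣ ((x₀ + 2 ^ g * m : ℕ) : ℤ) - ((x₀ + ge q δ j : ℕ) : ℤ) :=
      (Nat.modEq_iff_dvd).1 hj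
    obtain ⟨z, hz⟩ := hj'
    rcases Int.even_or_odd z with ⟨w, hw⟩ | hzo
    · refine ⟨j, (Nat.modEq_iff_dvd).2 ⟨w, ?_⟩⟩
      rw [hz, hw]
      push_cast
      ring
    · have h2 : ge q δ (j + 2 ^ (i + 1)) = ge q δ j + q ^ j * (2 ^ (g + i) * o) := by rw [ge_add, h1]
      have h3 : Odd ((q : ℤ) ^ j * o) := by
        have h4 : Odd (q ^ j * o) := (hq.pow).mul ho
        exact_mod_cast h4
      obtain ⟨w, hw⟩ := hzo.sub_odd h3
      refine ⟨j + 2 ^ (i + 1), (Nat.modEq_iff_dvd).2 ⟨w, ?_⟩⟩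
      rw [h2]
      have h5 : ((x₀ + 2 ^ g * m : ℕ) : ℤ) - ((x₀ + (ge q δ j + q ^ j * (2 ^ (g + i) * o)) : ℕ) : ℤ) =
          (((x₀ + 2 ^ g * m : ℕ) : ℤ) - ((x₀ + ge q δ j : ℕ) : ℤ)) - (2 ^ (g + i)) * ((q : ℤ) ^ j * o) := by
        push_cast
        ring
      rw [h5, hz]
      have h6 : ((2 ^ (g + i) : ℕ) : ℤ) * z - 2 ^ (g + i) * ((q : ℤ) ^ j * o) = 2 ^ (g + i) * (z - (q : ℤ) ^ j * o) := by
        push_cast
        ring
      rw [h6, hw]
      push_cast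
      ring

/-- no section contains a geometric (or arithmetic, `q = 1`) progression with odd ratio -/
lemma no_geom {S : ℕ → ℕ → Prop} (hS : Clo S) (c x₀ q δ : ℕ) (hq : Odd q) (hδ : 1 ≤ δ) (hx : 2 ≤ x₀)
    (h : ∀ j, S c (x₀ + ge q δ j)) : False := by
  obtain ⟨g, hg⟩ := ge_dense hq hδ x₀
  obtain ⟨m, K, hK⟩ := escape hS g c x₀
  obtain ⟨j, hj⟩ := hg m K
  refine hK _ (by omega) ?_ (h j)
  exact Nat.ModEq.of_dvd (pow_dvd_pow 2 (Nat.le_add_left K g)) hj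

lemma ge_one (δ j : ℕ) : ge 1 δ j = j * δ := by
  induction j with
  | zero => simp [ge]
  | succ j ih => rw [ge, ih]; ring

/-! ### the orbit -/

lemma orbit {S : ℕ → ℕ → Prop} (hS : Clo S) (h0 : S 2 8) (t : ℕ) :
    ∃ c n, S c n ∧ c ≤ 2 * t + 2 ∧ 8 * 3 ^ t ≤ n * 2 ^ t ∧ 8 ≤ n := by
  induction t with
  | zero => exact ⟨2, 8, h0, by norm_num, by norm_num, le_refl 8⟩
  | succ t ih =>
    obtain ⟨c, n, h1, h2, h3, h4⟩ := ih
    rcases Nat.even_or_odd' n with ⟨μ, rfl | rfl⟩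
    · refine ⟨c + 2, 3 * μ + 2, hS.he c μ (by omega) h1, by omega, ?_, by omega⟩
      rw [pow_succ, pow_succ]
      nlinarith [Nat.one_le_two_pow (n := t)]
    · cases c with
      | zero => exact absurd h1 (hS.hh μ (by omega))
      | succ c =>
        refine ⟨c, 3 * μ + 3, hS.ho c μ (by omega) h1, by omega, ?_, by omega⟩
        rw [pow_succ, pow_succ]
        nlinarith [Nat.one_le_two_pow (n := t)]

/-- the orbit contains pairs with `n` much larger than `c` -/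
lemma orbit_large {S : ℕ → ℕ → Prop} (hS : Clo S) (h0 : S 2 8) (K : ℕ) :
    ∃ c n, S c n ∧ K * (c + 1) < n ∧ 8 ≤ n := by
  have h1 : Filter.Tendsto (fun t : ℕ => ((t : ℝ)) ^ 1 / (3 / 2 : ℝ) ^ t) Filter.atTop (nhds 0) :=
    tendsto_pow_const_div_const_pow_of_one_lt 1 (by norm_num)
  have h2 : ∀ᶠ t : ℕ in Filter.atTop, ((t : ℝ)) ^ 1 / (3 / 2 : ℝ) ^ t < 1 / (K + 1) :=
    h1.eventually (gt_mem_nhds (by positivity))
  obtain ⟨t, ht, ht1⟩ := (h2.and (Filter.eventually_ge_atTop 1)).exists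
  obtain ⟨c, n, h3, h4, h5, h6⟩ := orbit hS h0 t
  refine ⟨c, n, h3, ?_, h6⟩
  have h7 : (t : ℝ) * (K + 1) < (3 / 2 : ℝ) ^ t := by
    rw [pow_one, div_lt_div_iff₀ (by positivity) (by positivity)] at ht
    linarith
  have h8 : (8 : ℝ) * (3 / 2) ^ t ≤ n := by
    have h9 : (8 : ℝ) * 3 ^ t ≤ n * 2 ^ t := by exact_mod_cast h5
    rw [div_pow, mul_div_assoc', div_le_iff₀ (by positivity)]
    exact h9
  have h10 : (c : ℝ) ≤ 2 * t + 2 := by exact_mod_cast h4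
  have h11 : (1 : ℝ) ≤ t := by exact_mod_cast ht1
  have h12 : (K : ℝ) * (c + 1) < n := by
    have hK : (0 : ℝ) ≤ K := Nat.cast_nonneg K
    nlinarith [mul_le_mul_of_nonneg_left h10 hK, mul_le_mul_of_nonneg_left h11 hK]
  exact_mod_cast h12

end Pool.Agent.Helper31.BB6
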