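import Mathlib
import Pool.Agent.Helper31.BB6.Arith

/-!
# MP_8c0c42_lc: the `k`-kernel of an invariant of Antihydra is infinite for every base `k ≥ 2`
-/

set_option autoImplicit false

namespace Pool.Agent.Helper31.BB6

open Filter Topology

/-- the sections of the `k`-kernel of `S` -/
def ker (S : ℕ → ℕ → Prop) (k : ℕ) : Set (Set ℕ) :=
  {B | ∃ r c ρ, c < k ^ r ∧ ρ < k ^ r ∧ B = {ν | S c (k ^ r * ν + ρ)}}

/-! ### odd bases -/

lemma ge_succ' (q δ m : ℕ) : ge q δ (m + 1) = δ + q * ge q δ m := by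
  rw [add_comm m 1, ge_add]
  simp [ge]

lemma ge_mul (D q δ m : ℕ) : ge q (D * δ) m = D * ge q δ m := by
  induction m with
  | zero => simp [ge]
  | succ m ih => rw [ge, ge, ih]; ring

lemma ker_odd {S : ℕ → ℕ → Prop} (hS : Clo S) (hlarge : ∀ K : ℕ, ∃ c n, S c n ∧ K * (c + 1) < n ∧ 8 ≤ n)
    {k : ℕ} (hk : Odd k) (hk3 : 3 ≤ k) : (ker S k).Infinite := by
  intro hfin
  classical
  set F : Finset (Set ℕ) := hfin.toFinset with hF
  set N := F.card with hN
  obtain ⟨c, n, h1, h2, -⟩ := hlarge (k ^ (N + 1))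
  set r := Nat.log k (c + 1) + 1 with hr
  have hk1 : 1 < k := by omega
  have hcr : c + 1 < k ^ r := Nat.lt_pow_succ_log_self hk1 _
  have hrc : k ^ r ≤ k * (c + 1) := by
    rw [hr, pow_succ, mul_comm]
    exact Nat.mul_le_mul_left k (Nat.pow_log_le_self k (by omega))
  have hr1 : 1 ≤ r := by omega
  -- the sets
  set B : ℕ → Set ℕ := fun i => {ν | S c (k ^ (r + i) * ν + n % k ^ (r + i))} with hB
  have hBF : ∀ i, B i ∈ F := by
    intro i
    rw [hF, Set.Finite.mem_toFinset]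
    refine ⟨r + i, c, n % k ^ (r + i), ?_, Nat.mod_lt _ (by positivity), rfl⟩
    calc c < k ^ r := by omega
      _ ≤ k ^ (r + i) := Nat.pow_le_pow_right (by omega) (by omega)
  have hpig : ∃ a b : Fin (N + 1), a ≠ b ∧ B a = B b := by
    have := Finset.exists_ne_map_eq_of_card_lt_of_maps_to (s := (Finset.univ : Finset (Fin (N + 1)))) (t := F)
      (f := fun i => B i) (by simp [hN]) (fun i _ => hBF i)
    obtain ⟨a, -, b, -, hab, h⟩ := this
    exact ⟨a, b, hab, h⟩
  obtain ⟨i, p, hp, hip, hBi⟩ : ∃ i p, 1 ≤ p ∧ i + p ≤ N ∧ B i = B (i + p) := by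
    obtain ⟨a, b, hab, hfab⟩ := hpig
    rcases lt_or_gt_of_ne (fun h => hab (Fin.ext h) : (a : ℕ) ≠ (b : ℕ)) with h | h
    · refine ⟨a, b - a, by omega, by omega, ?_⟩
      rw [show (a : ℕ) + (b - a) = b by omega]
      exact hfab
    · refine ⟨b, a - b, by omega, by omega, ?_⟩
      rw [show (b : ℕ) + (a - b) = a by omega]
      exact hfab.symm
  set D := k ^ (r + i) with hD
  set q := k ^ p with hq
  have hDq : k ^ (r + (i + p)) = D * q := by rw [hD, hq, ← pow_add (a := k) (m := r + i) (n := p), add_assoc r i p]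
  have hD0 : 0 < D := by rw [hD]; positivity
  have hq0 : 0 < q := by rw [hq]; positivity
  have hD3 : 3 ≤ D := by
    calc 3 ≤ k := hk3
      _ = k ^ 1 := (pow_one k).symm
      _ ≤ D := Nat.pow_le_pow_right (by omega) (by omega)
  set ρ := n % D with hρ
  set y := n / D % q with hy
  set ν₀ := n / D / q with hν₀
  have hmod : n % k ^ (r + (i + p)) = ρ + D * y := by
    rw [hDq, Nat.mod_mul]
  have hn : D * (q * ν₀ + y) + ρ = n := by
    have e1 := Nat.div_add_mod (n / D) q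
    have e2 := Nat.div_add_mod n D
    rw [hν₀, hy, hρ, e1, e2]
  have hν₀1 : 1 ≤ ν₀ := by
    rw [hν₀, Nat.div_div_eq_div_mul, ← hDq]
    apply Nat.div_pos _ (by positivity)
    calc k ^ (r + (i + p)) ≤ k ^ (r + N) := Nat.pow_le_pow_right (by omega) (by omega)
      _ = k ^ N * k ^ r := by rw [pow_add, mul_comm]
      _ ≤ k ^ N * (k * (c + 1)) := Nat.mul_le_mul_left _ hrc
      _ = k ^ (N + 1) * (c + 1) := by rw [pow_succ]; ring
      _ ≤ n := h2.le
  have hstep : ∀ ν, S c (D * ν + ρ) → S c (D * (q * ν + y) + ρ) := by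
    intro ν hν
    have h3 : ν ∈ B i := hν
    rw [hBi] at h3
    have h4 : S c (k ^ (r + (i + p)) * ν + n % k ^ (r + (i + p))) := h3
    rw [hmod, hDq] at h4
    convert h4 using 1
    ring
  have h0 : S c (D * ν₀ + ρ) := by
    have h3 : ν₀ ∈ B (i + p) := by
      show S c (k ^ (r + (i + p)) * ν₀ + n % k ^ (r + (i + p)))
      rw [hmod, hDq]
      convert h1 using 1
      rw [← hn]
      ring
    rw [← hBi] at h3
    exact h3
  set δ' := (q - 1) * ν₀ + y with hδ'
  have hq2 : 2 ≤ q := by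
    calc 2 ≤ k := by omega
      _ = k ^ 1 := (pow_one k).symm
      _ ≤ q := Nat.pow_le_pow_right (by omega) hp
  have hδ1 : 1 ≤ δ' := by
    have : 1 * 1 ≤ (q - 1) * ν₀ := Nat.mul_le_mul (by omega) hν₀1
    omega
  have hall : ∀ m, S c (D * (ν₀ + ge q δ' m) + ρ) := by
    intro m
    induction m with
    | zero => simpa [ge] using h0
    | succ m ih =>
      have h3 := hstep _ ih
      convert h3 using 3
      rw [ge_succ']
      have e : ν₀ + δ' = q * ν₀ + y := by
        rw [hδ']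
        obtain ⟨q', hq'⟩ : ∃ q', q = q' + 1 := ⟨q - 1, by omega⟩
        rw [hq', Nat.add_sub_cancel]
        ring
      calc ν₀ + (δ' + q * ge q δ' m) = (ν₀ + δ') + q * ge q δ' m := by ring
        _ = q * (ν₀ + ge q δ' m) + y := by rw [e]; ring
  refine no_geom hS c (D * ν₀ + ρ) q (D * δ') ?_ ?_ ?_ ?_
  · exact hk.pow
  · exact Nat.one_le_iff_ne_zero.2 (by positivity)
  · have : 3 * 1 ≤ D * ν₀ := Nat.mul_le_mul hD3 hν₀1
    omega
  · intro j
    have h3 := hall j
    rw [ge_mul]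
    convert h3 using 1
    ring

/-! ### even bases -/

lemma forbid {S : ℕ → ℕ → Prop} (hS : Clo S) {k : ℕ} (hk : Even k) (hk2 : 2 ≤ k) (F : Finset (Set ℕ)) :
    (∀ B ∈ F, B ∈ ker S k) → ∃ j w, w < k ^ j ∧ ∀ B ∈ F, ∀ ν, 1 ≤ ν → k ^ j * ν + w ∉ B := by
  classical
  induction F using Finset.induction_on with
  | empty => intro _; exact ⟨0, 0, by simp, by simp⟩
  | insert B F hBF ih =>
    intro hF
    obtain ⟨j, w, hw, hjw⟩ := ih (fun B' hB' => hF B' (Finset.mem_insert_of_mem hB'))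
    obtain ⟨r, c, ρ, -, hρ, rfl⟩ := hF B (Finset.mem_insert_self _ _)
    obtain ⟨s, o, ho, hso⟩ := Nat.exists_eq_two_pow_mul_odd (n := k ^ (r + j)) (by positivity)
    set n₀ := k ^ r * w + ρ with hn₀
    obtain ⟨m, K, hK⟩ := escape hS s c n₀
    obtain ⟨v, hv, hv2⟩ : ∃ v, v < 2 ^ K ∧ v * o ≡ m [MOD 2 ^ K] := by
      have hco : Nat.Coprime (2 ^ K) o := Nat.Coprime.pow_left K (Nat.coprime_two_left.2 ho)
      obtain ⟨v, hv, hv'⟩ := Nat.exists_mul_mod_eq_of_coprime m hco.symm (by positivity)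
      exact ⟨v, hv, by rw [mul_comm]; exact hv'⟩
    have hvk : v < k ^ (K + 1) := by
      calc v < 2 ^ K := hv
        _ ≤ k ^ K := Nat.pow_le_pow_left hk2 K
        _ ≤ k ^ (K + 1) := Nat.pow_le_pow_right (by omega) (by omega)
    refine ⟨j + (K + 1), k ^ j * v + w, ?_, ?_⟩
    · rw [pow_add]
      calc k ^ j * v + w < k ^ j * v + k ^ j := by omega
        _ = k ^ j * (v + 1) := by ring
        _ ≤ k ^ j * k ^ (K + 1) := Nat.mul_le_mul_left _ hvk
    · intro B' hB' ν hν
      rw [Finset.mem_insert] at hB'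
      rcases hB' with rfl | hB'
      · intro hmem
        have hmem' : S c (k ^ r * (k ^ (j + (K + 1)) * ν + (k ^ j * v + w)) + ρ) := hmem
        have e1 : k ^ r * (k ^ (j + (K + 1)) * ν + (k ^ j * v + w)) + ρ =
            k ^ (r + j) * k ^ (K + 1) * ν + k ^ (r + j) * v + n₀ := by
          rw [hn₀, pow_add k j (K + 1), pow_add k r j]
          ring
        rw [e1] at hmem'
        refine hK _ ?_ ?_ hmem'
        · have h4 : 1 * 2 ^ 1 * 1 ≤ k ^ (r + j) * k ^ (K + 1) * ν := by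
            apply Nat.mul_le_mul _ hν
            apply Nat.mul_le_mul (Nat.one_le_iff_ne_zero.2 (by positivity))
            calc 2 ^ 1 ≤ k ^ 1 := Nat.pow_le_pow_left hk2 1
              _ ≤ k ^ (K + 1) := Nat.pow_le_pow_right (by omega) (by omega)
          omega
        · have h5 : 2 ^ K ∣ k ^ (r + j) * k ^ (K + 1) * ν := by
            have h6 : 2 ^ K ∣ k ^ (K + 1) :=
              (pow_dvd_pow 2 (Nat.le_succ K)).trans (pow_dvd_pow_of_dvd hk.two_dvd (K + 1))
            exact Dvd.dvd.mul_right (Dvd.dvd.mul_left h6 _) _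
          have h7 : k ^ (r + j) * k ^ (K + 1) * ν ≡ 0 [MOD 2 ^ K] := (Nat.modEq_zero_iff_dvd).2 h5
          have h8 : k ^ (r + j) * v ≡ 2 ^ s * m [MOD 2 ^ K] := by
            rw [hso, mul_assoc, mul_comm o v]
            exact hv2.mul_left (2 ^ s)
          have h9 := (h7.add h8).add_right n₀
          rw [zero_add, add_comm (2 ^ s * m) n₀] at h9
          exact h9
      · have h3 := hjw B' hB' (k ^ (K + 1) * ν + v) (by
          have : 1 * 1 ≤ k ^ (K + 1) * ν := Nat.mul_le_mul (Nat.one_le_iff_ne_zero.2 (by positivity)) hν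
          omega)
        have e : k ^ (j + (K + 1)) * ν + (k ^ j * v + w) = k ^ j * (k ^ (K + 1) * ν + v) + w := by
          rw [pow_add k j (K + 1)]
          ring
        rw [e]
        exact h3

/-! ### the leading digits of the orbit -/

/-- density of the multiples of an irrational number modulo one, with arbitrarily large natural multipliers -/
lemma irr_dense {θ : ℝ} (hθ : Irrational θ) (a α β : ℝ) (h : α < β) :
    ∃ᶠ t : ℕ in atTop, ∃ J : ℤ, α < t * θ + a - J ∧ t * θ + a - J < β := by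
  have hd : DenseRange (fun n : ℤ => n • (θ : AddCircle (1 : ℝ))) :=
    AddCircle.denseRange_zsmul_coe_iff.2 (by rwa [div_one])
  set mid : ℝ := (α + β) / 2 - a with hmid
  have hcl : MapClusterPt (mid : AddCircle (1 : ℝ)) atTop (fun n : ℕ => n • (θ : AddCircle (1 : ℝ))) :=
    ((mapClusterPt_atTop_nsmul_tfae (mid : AddCircle (1 : ℝ)) (θ : AddCircle (1 : ℝ))).out 3 0).1 (hd _)
  have hopen : IsOpen ((fun x : ℝ => (x : AddCircle (1 : ℝ))) '' Set.Ioo (α - a) (β - a)) :=
    QuotientAddGroup.isOpenMap_coe _ isOpen_Ioo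
  have hmem : (mid : AddCircle (1 : ℝ)) ∈ (fun x : ℝ => (x : AddCircle (1 : ℝ))) '' Set.Ioo (α - a) (β - a) :=
    ⟨mid, ⟨by rw [hmid]; linarith, by rw [hmid]; linarith⟩, rfl⟩
  have hfr := (mapClusterPt_iff_frequently.1 hcl) _ (hopen.mem_nhds hmem)
  refine hfr.mono fun t ht => ?_
  obtain ⟨y, hy, hyt⟩ := ht
  have h2 : ((y : ℝ) : AddCircle (1 : ℝ)) = ((t * θ : ℝ) : AddCircle (1 : ℝ)) := by
    rw [show ((t * θ : ℝ)) = t • θ by simp]
    exact hyt
  have h3 : (((t * θ - y : ℝ)) : AddCircle (1 : ℝ)) = 0 := by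
    rw [AddCircle.coe_sub, ← h2, sub_self]
  obtain ⟨J, hJ⟩ := (AddCircle.coe_eq_zero_iff (1 : ℝ)).1 h3
  have hJ' : (J : ℝ) = t * θ - y := by simpa using hJ
  refine ⟨J, ?_, ?_⟩
  · rw [hJ']; linarith [hy.1]
  · rw [hJ']; linarith [hy.2]

/-- `log (3/2) / log k` is irrational -/
lemma irr_log {k : ℕ} (hk : 2 ≤ k) : Irrational (Real.log (3 / 2) / Real.log k) := by
  rintro ⟨r, hr⟩
  have hk1 : (1 : ℝ) < k := by exact_mod_cast (by omega : 1 < k)
  have hlk : 0 < Real.log k := Real.log_pos hk1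
  have hl3 : 0 < Real.log (3 / 2) := Real.log_pos (by norm_num)
  have hpos : (0 : ℝ) < r := by rw [hr]; positivity
  have hnum : 0 < r.num := Rat.num_pos.2 (by exact_mod_cast hpos)
  obtain ⟨a, ha⟩ : ∃ a : ℕ, r.num = a := ⟨r.num.toNat, by omega⟩
  have ha1 : 1 ≤ a := by omega
  set b := r.den with hb
  have hb1 : 1 ≤ b := r.den_pos
  have hab : (a : ℝ) * Real.log k = b * Real.log (3 / 2) := by
    have h1 : (r : ℝ) = a / b := by
      have h2 : (r : ℝ) = (r.num : ℝ) / (r.den : ℝ) := by exact_mod_cast (Rat.num_div_den r).symm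
      rw [h2, ha, hb]
      push_cast
      rfl
    rw [h1, div_eq_div_iff (by positivity) hlk.ne'] at hr
    linarith
  have h3 : Real.log ((k : ℝ) ^ a) = Real.log ((3 / 2 : ℝ) ^ b) := by
    rw [Real.log_pow, Real.log_pow]; exact hab
  have h4 : (k : ℝ) ^ a = (3 / 2 : ℝ) ^ b := Real.log_injOn_pos (by simp; positivity) (by simp) h3
  rw [div_pow, eq_div_iff (by positivity)] at h4
  have h5 : k ^ a * 2 ^ b = 3 ^ b := by exact_mod_cast h4
  have h6 : 2 ∣ 3 ^ b := by
    rw [← h5]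
    exact Dvd.dvd.mul_left (dvd_pow_self 2 (by omega)) _
  have h7 := Nat.prime_two.dvd_of_dvd_pow h6
  omega

/-- the orbit of `(2, 8)` -/
def orb : ℕ → ℕ × ℕ
  | 0 => (2, 8)
  | t + 1 => if (orb t).2 % 2 = 0 then ((orb t).1 + 2, 3 * ((orb t).2 / 2) + 2)
      else ((orb t).1 - 1, 3 * ((orb t).2 / 2) + 3)

lemma orb_bound (t : ℕ) : 3 * (orb t).2 + 3 ≤ 2 * (orb (t + 1)).2 ∧ 2 * (orb (t + 1)).2 ≤ 3 * (orb t).2 + 4 := by
  simp only [orb]
  split_ifs with h
  · simp only; omega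
  · simp only; omega

lemma orb_c (t : ℕ) : (orb t).1 ≤ 2 * t + 2 := by
  induction t with
  | zero => simp [orb]
  | succ t ih =>
    simp only [orb]
    split_ifs with h
    · simp only; omega
    · simp only; omega

lemma orb_n (t : ℕ) : 8 ≤ (orb t).2 := by
  induction t with
  | zero => simp [orb]
  | succ t ih =>
    have := (orb_bound t).1
    omega

lemma orb_mem {S : ℕ → ℕ → Prop} (hS : Clo S) (h0 : S 2 8) (t : ℕ) : S (orb t).1 (orb t).2 := by
  induction t with
  | zero => exact h0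
  | succ t ih =>
    have h8 := orb_n t
    simp only [orb]
    split_ifs with h
    · simp only
      refine hS.he _ ((orb t).2 / 2) (by omega) ?_
      rwa [show 2 * ((orb t).2 / 2) = (orb t).2 by omega]
    · simp only
      have h2 : 2 * ((orb t).2 / 2) + 1 = (orb t).2 := by omega
      rcases Nat.eq_zero_or_pos (orb t).1 with hc | hc
      · rw [hc] at ih
        rw [← h2] at ih
        exact absurd ih (hS.hh ((orb t).2 / 2) (by omega))
      · refine hS.ho _ ((orb t).2 / 2) (by omega) ?_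
        rw [h2, show (orb t).1 - 1 + 1 = (orb t).1 by omega]
        exact ih

/-- the normalised orbit converges -/
lemma orb_lim : ∃ κ : ℝ, 8 ≤ κ ∧ Tendsto (fun t => ((orb t).2 : ℝ) / (3 / 2) ^ t) atTop (𝓝 κ) := by
  set x : ℕ → ℝ := fun t => ((orb t).2 : ℝ) / (3 / 2) ^ t with hx
  have hmono : Monotone x := by
    apply monotone_nat_of_le_succ
    intro t
    simp only [hx]
    rw [div_le_div_iff₀ (by positivity) (by positivity), pow_succ]
    have h1 : (3 : ℝ) * (orb t).2 + 3 ≤ 2 * (orb (t + 1)).2 := by exact_mod_cast (orb_bound t).1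
    have h2 : (0 : ℝ) < (3 / 2) ^ t := by positivity
    nlinarith
  have hbdd : ∀ t, ((orb t).2 : ℝ) + 4 ≤ 12 * (3 / 2) ^ t := by
    intro t
    induction t with
    | zero => norm_num [orb]
    | succ t ih =>
      have h1 : (2 : ℝ) * (orb (t + 1)).2 ≤ 3 * (orb t).2 + 4 := by exact_mod_cast (orb_bound t).2
      rw [pow_succ]
      linarith
  have hB : BddAbove (Set.range x) := by
    refine ⟨12, ?_⟩
    rintro _ ⟨t, rfl⟩
    simp only [hx]
    rw [div_le_iff₀ (by positivity)]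
    linarith [hbdd t]
  refine ⟨⨆ t, x t, ?_, tendsto_atTop_ciSup hmono hB⟩
  have := le_ciSup hB 0
  have h0 : x 0 = 8 := by norm_num [hx, orb]
  linarith

/-- the leading digits: for every `W ≥ 1` some point of the orbit is in `[k^J W, k^J (W + 1))` with `k^J` larger than the
other coordinate -/
lemma lead {S : ℕ → ℕ → Prop} (hS : Clo S) (h0 : S 2 8) {k : ℕ} (hk : 2 ≤ k) {W : ℕ} (hW : 1 ≤ W) :
    ∃ c n J, S c n ∧ c < k ^ J ∧ k ^ J * W ≤ n ∧ n < k ^ J * (W + 1) := by
  obtain ⟨κ, hκ, hlim⟩ := orb_lim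
  have hk1 : (1 : ℝ) < k := by exact_mod_cast (by omega : 1 < k)
  have hlk : 0 < Real.log k := Real.log_pos hk1
  have hW0 : (0 : ℝ) < W := by exact_mod_cast hW
  set α := Real.log W / Real.log k with hα
  set β := Real.log (W + 1) / Real.log k with hβ
  have hαβ : α < β := by
    rw [hα, hβ]
    exact div_lt_div_of_pos_right (Real.log_lt_log hW0 (by linarith)) hlk
  set θ := Real.log (3 / 2) / Real.log k with hθ
  set a := Real.log κ / Real.log k with ha
  have hlim2 : Tendsto (fun t => Real.log (((orb t).2 : ℝ) / (3 / 2) ^ t) / Real.log k) atTop (𝓝 a) :=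
    ((Real.continuousAt_log (by linarith : κ ≠ 0)).tendsto.comp hlim).div_const _
  set δ := (β - α) / 3 with hδ
  have hδ0 : 0 < δ := by rw [hδ]; linarith
  have hev : ∀ᶠ t in atTop, |Real.log (((orb t).2 : ℝ) / (3 / 2) ^ t) / Real.log k - a| < δ := by
    have := Metric.tendsto_atTop.1 hlim2 δ hδ0
    obtain ⟨N, hN⟩ := this
    filter_upwards [eventually_ge_atTop N] with t ht
    have := hN t ht
    rwa [Real.dist_eq] at this
  have hev2 : ∀ᶠ t : ℕ in atTop, ((W : ℝ) + 1) * (2 * t + 3) < 8 * (3 / 2) ^ t := by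
    have h1 : Tendsto (fun t : ℕ => ((t : ℝ)) ^ 1 / (3 / 2 : ℝ) ^ t) atTop (nhds 0) :=
      tendsto_pow_const_div_const_pow_of_one_lt 1 (by norm_num)
    have h2 : ∀ᶠ t : ℕ in atTop, ((t : ℝ)) ^ 1 / (3 / 2 : ℝ) ^ t < 8 / (5 * (W + 1)) :=
      h1.eventually (gt_mem_nhds (by positivity))
    filter_upwards [h2, eventually_ge_atTop 1] with t ht ht1
    rw [pow_one, div_lt_div_iff₀ (by positivity) (by positivity)] at ht
    have h3 : (1 : ℝ) ≤ t := by exact_mod_cast ht1
    nlinarith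
  have hfr := irr_dense (irr_log hk) a (α + δ) (β - δ) (by rw [hδ]; linarith)
  obtain ⟨t, ⟨J, hJ1, hJ2⟩, ht1, ht2⟩ := (hfr.and_eventually (hev.and hev2)).exists
  have h8 := orb_n t
  have hn0 : (0 : ℝ) < (orb t).2 := by exact_mod_cast (by omega : 0 < (orb t).2)
  have hp0 : (0 : ℝ) < (3 / 2 : ℝ) ^ t := by positivity
  have hlog : t * θ + Real.log (((orb t).2 : ℝ) / (3 / 2) ^ t) / Real.log k = Real.log (orb t).2 / Real.log k := by
    rw [Real.log_div hn0.ne' hp0.ne', Real.log_pow, hθ]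
    ring
  obtain ⟨ha1, ha2⟩ := abs_lt.1 ht1
  have hlow : Real.log W + J * Real.log k < Real.log (orb t).2 := by
    have h1 : α + J < Real.log (orb t).2 / Real.log k := by linarith
    rw [lt_div_iff₀ hlk, hα, add_mul, div_mul_cancel₀ _ hlk.ne'] at h1
    exact h1
  have hupp : Real.log (orb t).2 < Real.log (W + 1) + J * Real.log k := by
    have h1 : Real.log (orb t).2 / Real.log k < β + J := by linarith
    rw [div_lt_iff₀ hlk, hβ, add_mul, div_mul_cancel₀ _ hlk.ne'] at h1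
    exact h1
  -- the size of the orbit
  have hgrow : 8 * (3 / 2 : ℝ) ^ t ≤ (orb t).2 := by
    have h1 : ∀ t, 8 * (3 / 2 : ℝ) ^ t ≤ (orb t).2 := by
      intro t
      induction t with
      | zero => norm_num [orb]
      | succ t ih =>
        have h2 : (3 : ℝ) * (orb t).2 + 3 ≤ 2 * (orb (t + 1)).2 := by exact_mod_cast (orb_bound t).1
        rw [pow_succ]
        linarith
    exact h1 t
  have hc : ((orb t).1 : ℝ) ≤ 2 * t + 2 := by exact_mod_cast orb_c t
  have hbig : ((W : ℝ) + 1) * ((orb t).1 + 1) < (orb t).2 := by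
    nlinarith
  have hlogc : Real.log ((orb t).1 + 1) < J * Real.log k := by
    have h1 := Real.log_lt_log (by positivity) hbig
    rw [Real.log_mul (by positivity) (by positivity)] at h1
    linarith
  have hJpos : 0 < J := by
    have h1 : 0 ≤ Real.log (((orb t).1 : ℝ) + 1) := Real.log_nonneg (by
      have : (0 : ℝ) ≤ (orb t).1 := Nat.cast_nonneg _
      linarith)
    have h2 : 0 < (J : ℝ) * Real.log k := by linarith
    have h3 : 0 < (J : ℝ) := by
      by_contra hcon
      push Not at hcon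
      nlinarith
    exact_mod_cast h3
  obtain ⟨j, rfl⟩ : ∃ j : ℕ, J = j := ⟨J.toNat, by omega⟩
  have hcast : (((j : ℕ) : ℤ) : ℝ) = (j : ℝ) := by norm_cast
  rw [hcast] at hlow hupp hlogc
  have hkj : (0 : ℝ) < (k : ℝ) ^ j := by positivity
  have e1 : (j : ℝ) * Real.log k = Real.log ((k : ℝ) ^ j) := (Real.log_pow (k : ℝ) j).symm
  rw [e1] at hlow hupp hlogc
  rw [← Real.log_mul hW0.ne' hkj.ne'] at hlow
  rw [← Real.log_mul (by positivity) hkj.ne'] at hupp
  have f1 := (Real.log_lt_log_iff (by positivity) hn0).1 hlow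
  have f2 := (Real.log_lt_log_iff hn0 (by positivity)).1 hupp
  have f3 := (Real.log_lt_log_iff (by positivity) hkj).1 hlogc
  refine ⟨(orb t).1, (orb t).2, j, orb_mem hS h0 t, ?_, ?_, ?_⟩
  · have : (orb t).1 + 1 < k ^ j := by exact_mod_cast f3
    omega
  · have : W * k ^ j < (orb t).2 := by exact_mod_cast f1
    rw [mul_comm]
    exact this.le
  · have : (orb t).2 < (W + 1) * k ^ j := by exact_mod_cast f2
    rw [mul_comm]
    exact this

lemma ker_even {S : ℕ → ℕ → Prop} (hS : Clo S) (h0 : S 2 8) {k : ℕ} (hk : Even k) (hk2 : 2 ≤ k) :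
    (ker S k).Infinite := by
  intro hfin
  obtain ⟨j, w, hw, hjw⟩ := forbid hS hk hk2 hfin.toFinset (fun B hB => hfin.mem_toFinset.1 hB)
  obtain ⟨c, n, J, h1, h2, h3, h4⟩ := lead hS h0 hk2 (W := k ^ j * 1 + w)
    (by
      have : 1 ≤ k ^ j := Nat.one_le_iff_ne_zero.2 (by positivity)
      omega)
  have hmem : {ν | S c (k ^ J * ν + (n - k ^ J * (k ^ j * 1 + w)))} ∈ ker S k :=
    ⟨J, c, _, h2, by rw [Nat.mul_succ (k ^ J)] at h4; omega, rfl⟩
  refine hjw _ (hfin.mem_toFinset.2 hmem) 1 le_rfl ?_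
  show S c (k ^ J * (k ^ j * 1 + w) + (n - k ^ J * (k ^ j * 1 + w)))
  rwa [Nat.add_sub_cancel' h3]

/-- the kernel is infinite in every base -/
theorem ker_infinite {S : ℕ → ℕ → Prop} (hS : Clo S) (h0 : S 2 8) {k : ℕ} (hk2 : 2 ≤ k) : (ker S k).Infinite := by
  rcases Nat.even_or_odd k with hk | hk
  · exact ker_even hS h0 hk hk2
  · refine ker_odd hS (orbit_large hS h0) hk ?_
    obtain ⟨m, hm⟩ := hk
    omega

end Pool.Agent.Helper31.BB6
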