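import Mathlib
import Pool.Agent.Helper31.BB6.Kernel

/-!
# MP_8c0c42_lc: an invariant of Antihydra is nowhere fat
-/

set_option autoImplicit false

namespace Pool.Agent.Helper31.BB6

lemma cancel_three {x y K : ℕ} (h : 3 * x ≡ 3 * y [MOD 2 ^ K]) : x ≡ y [MOD 2 ^ K] :=
  Nat.ModEq.cancel_left_of_coprime (Nat.Coprime.pow_left K (by norm_num)) h

lemma path {S : ℕ → ℕ → Prop} (hS : Clo S) (b : ℕ) : ∀ e c n₀, e ≤ b → ∃ ρ, ρ ≡ n₀ [MOD 2 ^ e] ∧
    ∀ n', 2 ≤ n' → n' ≡ ρ [MOD 2 ^ b] → S c n' →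
      ∃ c'' n'', S c'' n'' ∧ c'' + b ≤ c + 3 * e ∧ 3 ^ b * n' ≤ 2 ^ b * n'' := by
  induction b with
  | zero =>
    intro e c n₀ he
    obtain rfl : e = 0 := by omega
    exact ⟨n₀, rfl, fun n' _ _ hs => ⟨c, n', hs, by omega, by simp⟩⟩
  | succ b ih =>
    intro e c n₀ he
    rcases Nat.eq_zero_or_pos e with rfl | hpos
    · cases c with
      | zero =>
        refine ⟨1, by simp [Nat.modEq_one], fun n' hn' h hs => ?_⟩
        obtain ⟨μ', rfl, -⟩ := half_odd (μ := 0) (K := b) h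
        exact absurd hs (hS.hh μ' (by omega))
      | succ c =>
        obtain ⟨ρ', -, h1⟩ := ih 0 c 0 (Nat.zero_le _)
        obtain ⟨μ, hμ⟩ := exists_three_mul_add ρ' 3 b
        refine ⟨2 * μ + 1, by simp [Nat.modEq_one], fun n' hn' h hs => ?_⟩
        obtain ⟨μ', rfl, h'⟩ := half_odd h
        obtain ⟨c'', n'', h2, h3, h4⟩ := h1 (3 * μ' + 3) (by omega) (((h'.mul_left 3).add_right 3).trans hμ)
          (hS.ho c μ' (by omega) hs)
        refine ⟨c'', n'', h2, by omega, ?_⟩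
        rw [pow_succ, pow_succ]
        nlinarith [Nat.one_le_pow b 3 (by norm_num)]
    · obtain ⟨e, rfl⟩ : ∃ e', e = e' + 1 := ⟨e - 1, by omega⟩
      rcases Nat.even_or_odd' n₀ with ⟨μ₀, rfl | rfl⟩
      · obtain ⟨ρ', hρ', h1⟩ := ih e (c + 2) (3 * μ₀ + 2) (by omega)
        obtain ⟨μ, hμ⟩ := exists_three_mul_add ρ' 2 b
        refine ⟨2 * μ, ?_, fun n' hn' h hs => ?_⟩
        · have h5 : 3 * μ + 2 ≡ 3 * μ₀ + 2 [MOD 2 ^ e] :=
            (Nat.ModEq.of_dvd (pow_dvd_pow 2 (by omega)) hμ).trans hρ'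
          have h6 := cancel_three (Nat.ModEq.add_right_cancel' 2 h5)
          rw [pow_succ, mul_comm (2 ^ e)]
          exact h6.mul_left' 2
        · obtain ⟨μ', rfl, h'⟩ := half_even h
          obtain ⟨c'', n'', h2, h3, h4⟩ := h1 (3 * μ' + 2) (by omega) (((h'.mul_left 3).add_right 2).trans hμ)
            (hS.he c μ' (by omega) hs)
          refine ⟨c'', n'', h2, by omega, ?_⟩
          rw [pow_succ, pow_succ]
          nlinarith [Nat.one_le_pow b 3 (by norm_num)]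
      · cases c with
        | zero =>
          refine ⟨2 * μ₀ + 1, rfl, fun n' hn' h hs => ?_⟩
          obtain ⟨μ', rfl, -⟩ := half_odd h
          exact absurd hs (hS.hh μ' (by omega))
        | succ c =>
          obtain ⟨ρ', hρ', h1⟩ := ih e c (3 * μ₀ + 3) (by omega)
          obtain ⟨μ, hμ⟩ := exists_three_mul_add ρ' 3 b
          refine ⟨2 * μ + 1, ?_, fun n' hn' h hs => ?_⟩
          · have h5 : 3 * μ + 3 ≡ 3 * μ₀ + 3 [MOD 2 ^ e] :=
              (Nat.ModEq.of_dvd (pow_dvd_pow 2 (by omega)) hμ).trans hρ'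
            have h6 := cancel_three (Nat.ModEq.add_right_cancel' 3 h5)
            rw [pow_succ, mul_comm (2 ^ e)]
            exact (h6.mul_left' 2).add_right 1
          · obtain ⟨μ', rfl, h'⟩ := half_odd h
            obtain ⟨c'', n'', h2, h3, h4⟩ := h1 (3 * μ' + 3) (by omega) (((h'.mul_left 3).add_right 3).trans hμ)
              (hS.ho c μ' (by omega) hs)
            refine ⟨c'', n'', h2, by omega, ?_⟩
            rw [pow_succ, pow_succ]
            nlinarith [Nat.one_le_pow b 3 (by norm_num)]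

/-- an interval of length at least `M` meets every class modulo `M` -/
lemma exists_in_window (a x M : ℕ) (hM : 0 < M) : ∃ y, a ≤ y ∧ y < a + M ∧ y ≡ x [MOD M] := by
  have h1 : a % M < M := Nat.mod_lt _ hM
  have h2 : x % M < M := Nat.mod_lt _ hM
  refine ⟨a + (x % M + M - a % M) % M, by omega, by have := Nat.mod_lt (x % M + M - a % M) hM; omega, ?_⟩
  have h3 : a + (x % M + M - a % M) % M ≡ a % M + (x % M + M - a % M) [MOD M] :=
    (Nat.mod_modEq a M).symm.add (Nat.mod_modEq _ M)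
  refine h3.trans ?_
  have h4 : a % M + (x % M + M - a % M) = x % M + M := by omega
  rw [h4]
  unfold Nat.ModEq
  simp

/-- one step of the descent -/
lemma descend {S : ℕ → ℕ → Prop} (hS : Clo S) {E c n a l m r : ℕ} (hm : 1 ≤ m) (hE : 1 ≤ E)
    (ha' : n ≤ a + l) (hl2 : 2 * l ≤ n) (hbig : n * m ^ (3 * E) ≤ l ^ E) (hn : 4 ^ E ≤ n)
    (hwin : ∀ n', a ≤ n' → n' ≤ a + l → n' ≡ r [MOD m] → S c n') :
    ∃ c'' n'', S c'' n'' ∧ n ≤ n'' ∧ 2 ^ (E * c'') * n ≤ 2 ^ (E * (c + 1)) := by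
  obtain ⟨e, m', hm', hme⟩ := Nat.exists_eq_two_pow_mul_odd (n := m) (by omega)
  have hm'0 : 0 < m' := hm'.pos
  have h4m : 4 * m ≤ l := by
    by_contra hcon
    push Not at hcon
    have h1 : l ^ E < (4 * m) ^ E := Nat.pow_lt_pow_left hcon (by omega)
    have h2 : (4 * m) ^ E ≤ n * m ^ (3 * E) := by
      rw [mul_pow]
      exact Nat.mul_le_mul hn (Nat.pow_le_pow_right hm (by omega))
    omega
  have hm'm : m' ≤ m := by
    rw [hme]
    exact Nat.le_mul_of_pos_left _ (by positivity)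
  set u := l / m' with hu
  have hu1 : l < m' * (u + 1) := Nat.lt_mul_div_succ l hm'0
  have hu0 : 1 ≤ u := by
    rw [hu, Nat.le_div_iff_mul_le hm'0]
    omega
  have hum : m' * u ≤ l := Nat.mul_div_le l m'
  set b := Nat.log 2 u with hb
  have hb1 : 2 ^ b ≤ u := Nat.pow_log_le_self 2 (by omega)
  have hb2 : u < 2 ^ (b + 1) := Nat.lt_pow_succ_log_self (by norm_num) u
  have hlb : l < m' * (2 * 2 ^ b) := by
    refine lt_of_lt_of_le hu1 (Nat.mul_le_mul_left m' ?_)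
    rw [pow_succ] at hb2
    omega
  have heb : e + 2 ≤ b := by
    have h1 : m' * (2 * (2 * 2 ^ e)) < m' * (2 * 2 ^ b) := by
      calc m' * (2 * (2 * 2 ^ e)) = 4 * m := by rw [hme]; ring
        _ ≤ l := h4m
        _ < _ := hlb
    have h2 : 2 * (2 * 2 ^ e) < 2 * 2 ^ b := Nat.lt_of_mul_lt_mul_left h1
    have h3 : 2 ^ (e + 1) < 2 ^ b := by rw [pow_succ]; omega
    exact (Nat.pow_lt_pow_iff_right (by norm_num : 1 < 2)).1 h3
  obtain ⟨ρ, hρ, hpath⟩ := path hS b e c r (by omega)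
  -- the residue class
  have hco : Nat.Coprime m' (2 ^ b) := Nat.Coprime.pow_right b (Nat.coprime_two_right.2 hm')
  obtain ⟨x, hx1, hx2⟩ := Nat.chineseRemainder hco r ρ
  obtain ⟨y, hy1, hy2, hy3⟩ := exists_in_window a x (m' * 2 ^ b) (Nat.mul_pos hm'0 (by positivity))
  have hMl : m' * 2 ^ b ≤ l := (Nat.mul_le_mul_left m' hb1).trans hum
  have hyn : y ≡ r [MOD m] := by
    have h1 : y ≡ r [MOD m'] := (Nat.ModEq.of_dvd (Dvd.intro _ rfl) hy3).trans hx1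
    have h2 : y ≡ ρ [MOD 2 ^ b] := (Nat.ModEq.of_dvd (Dvd.intro_left _ rfl) hy3).trans hx2
    have h3 : y ≡ r [MOD 2 ^ e] := (Nat.ModEq.of_dvd (pow_dvd_pow 2 (by omega)) h2).trans hρ
    rw [hme]
    exact (Nat.modEq_and_modEq_iff_modEq_mul (Nat.Coprime.pow_left e (Nat.coprime_two_left.2 hm'))).1 ⟨h3, h1⟩
  have hSy : S c y := hwin y hy1 (by omega) hyn
  have hyge : n ≤ 2 * y := by omega
  have hn4 : 4 ≤ n := by
    calc 4 = 4 ^ 1 := rfl
      _ ≤ 4 ^ E := Nat.pow_le_pow_right (by norm_num) hE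
      _ ≤ n := hn
  obtain ⟨c'', n'', h1, h2, h3⟩ := hpath y (by omega) ((Nat.ModEq.of_dvd (Dvd.intro_left _ rfl) hy3).trans hx2) hSy
  refine ⟨c'', n'', h1, ?_, ?_⟩
  · have h4 : 2 * 2 ^ b ≤ 3 ^ b := by
      obtain ⟨b', hb'⟩ : ∃ b', b = b' + 2 := ⟨b - 2, by omega⟩
      have h5 : 2 ^ b' ≤ 3 ^ b' := Nat.pow_le_pow_left (by norm_num) b'
      rw [hb', pow_add, pow_add]
      omega
    have h5 : (2 * 2 ^ b) * n ≤ (2 * 2 ^ b) * n'' := by
      calc (2 * 2 ^ b) * n ≤ 3 ^ b * n := Nat.mul_le_mul_right _ h4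
        _ ≤ 3 ^ b * (2 * y) := Nat.mul_le_mul_left _ hyge
        _ = 2 * (3 ^ b * y) := by ring
        _ ≤ 2 * (2 ^ b * n'') := Nat.mul_le_mul_left _ h3
        _ = (2 * 2 ^ b) * n'' := by ring
    exact Nat.le_of_mul_le_mul_left h5 (by positivity)
  · have h4 : 2 ^ c'' * 2 ^ b ≤ 2 ^ c * 2 ^ (3 * e) := by
      rw [← pow_add, ← pow_add]
      exact Nat.pow_le_pow_right (by norm_num) h2
    have h5 : 2 ^ c'' * l ≤ 2 * m ^ 3 * 2 ^ c := by
      calc 2 ^ c'' * l ≤ 2 ^ c'' * (m' * (2 * 2 ^ b)) := Nat.mul_le_mul_left _ hlb.le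
        _ = 2 * m' * (2 ^ c'' * 2 ^ b) := by ring
        _ ≤ 2 * m' * (2 ^ c * 2 ^ (3 * e)) := Nat.mul_le_mul_left _ h4
        _ ≤ 2 * m' ^ 3 * (2 ^ c * 2 ^ (3 * e)) :=
            Nat.mul_le_mul_right _ (Nat.mul_le_mul_left 2 (Nat.le_self_pow (by norm_num) m'))
        _ = 2 * m ^ 3 * 2 ^ c := by rw [hme, mul_comm 3 e, pow_mul]; ring
    have h6 : (2 ^ c'' * l) ^ E ≤ (2 * m ^ 3 * 2 ^ c) ^ E := Nat.pow_le_pow_left h5 E
    have h7 : m ^ (3 * E) * (2 ^ (E * c'') * n) ≤ m ^ (3 * E) * 2 ^ (E * (c + 1)) := by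
      calc m ^ (3 * E) * (2 ^ (E * c'') * n) = 2 ^ (E * c'') * (n * m ^ (3 * E)) := by ring
        _ ≤ 2 ^ (E * c'') * l ^ E := Nat.mul_le_mul_left _ hbig
        _ = (2 ^ c'' * l) ^ E := by rw [mul_pow, ← pow_mul, mul_comm c'' E]
        _ ≤ (2 * m ^ 3 * 2 ^ c) ^ E := h6
        _ = m ^ (3 * E) * 2 ^ (E * (c + 1)) := by
            rw [mul_pow, mul_pow, ← pow_mul, ← pow_mul, mul_add, pow_add, mul_one, mul_comm c E]
            ring
    exact Nat.le_of_mul_le_mul_left h7 (by positivity)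

/-- the windows theorem -/
theorem nowhere_fat {S : ℕ → ℕ → Prop} (hS : Clo S) (h0 : S 2 8) (E N : ℕ) (hE : 1 ≤ E) :
    ∃ c n, S c n ∧ N ≤ n ∧ 2 ^ c ≤ n ^ 4 ∧ ∀ a l m r, 1 ≤ m → n ≤ a + l → 2 * l ≤ n →
      n * m ^ (3 * E) ≤ l ^ E → ∃ n', a ≤ n' ∧ n' ≤ a + l ∧ n' ≡ r [MOD m] ∧ ¬ S c n' := by
  by_contra hcon
  push Not at hcon
  -- a large starting point
  obtain ⟨t, ht⟩ : ∃ t, N + 2 ^ (E * (4 * E + 1)) + 1 ≤ (orb t).2 := by
    have hun : ∀ t, t ≤ (orb t).2 := by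
      intro t
      induction t with
      | zero => exact Nat.zero_le _
      | succ t ih =>
        have h4 := (orb_bound t).1
        have h5 := orb_n t
        omega
    exact ⟨_, hun _⟩
  have hstart : 2 ^ (orb t).1 ≤ (orb t).2 ^ 4 := by
    have hgrow : ∀ t, 2 ^ (t + 1) ≤ (orb t).2 ^ 2 := by
      intro t
      induction t with
      | zero => norm_num [orb]
      | succ t ih =>
        have h2 := (orb_bound t).1
        rw [pow_succ]
        nlinarith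
    have h1 := hgrow t
    calc 2 ^ (orb t).1 ≤ 2 ^ (2 * t + 2) := Nat.pow_le_pow_right (by norm_num) (orb_c t)
      _ = (2 ^ (t + 1)) ^ 2 := by rw [← pow_mul]; congr 1; ring
      _ ≤ ((orb t).2 ^ 2) ^ 2 := Nat.pow_le_pow_left h1 2
      _ = (orb t).2 ^ 4 := by rw [← pow_mul]
  have hs0 := orb_mem hS h0 t
  set c₀ := (orb t).1 with hc₀
  set n₀ := (orb t).2 with hn₀
  have hT : 2 ^ (E * (4 * E + 1)) + 1 ≤ n₀ :=
    le_trans (by rw [add_assoc]; exact Nat.le_add_left _ N) ht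
  have hN : N ≤ n₀ := le_trans (by rw [add_assoc]; exact Nat.le_add_right N _) ht
  have hn₀pos : 0 < n₀ := lt_of_lt_of_le (Nat.succ_pos _) hT
  have h2E : 2 ^ E ≤ n₀ := by
    have : 2 ^ E ≤ 2 ^ (E * (4 * E + 1)) := Nat.pow_le_pow_right (by norm_num) (Nat.le_mul_of_pos_right _ (by omega))
    omega
  have h4E : 4 ^ E ≤ n₀ := by
    have h1 : (4 : ℕ) ^ E = 2 ^ (2 * E) := by rw [pow_mul]; norm_num
    have : 2 ^ (2 * E) ≤ 2 ^ (E * (4 * E + 1)) := Nat.pow_le_pow_right (by norm_num) (by nlinarith)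
    omega
  have iter : ∀ j : ℕ, ∃ c n, S c n ∧ n₀ ≤ n ∧ c ≤ c₀ ∧ 2 ^ (E * c) * n₀ ^ j ≤ 2 ^ (E * (c₀ + j)) := by
    intro j
    induction j with
    | zero => exact ⟨c₀, n₀, hs0, le_rfl, le_rfl, by simp⟩
    | succ j ih =>
      obtain ⟨c, n, h1, h2, h3, h4⟩ := ih
      have hc : 2 ^ c ≤ n ^ 4 := by
        calc 2 ^ c ≤ 2 ^ c₀ := Nat.pow_le_pow_right (by norm_num) h3
          _ ≤ n₀ ^ 4 := hstart
          _ ≤ n ^ 4 := Nat.pow_le_pow_left h2 4
      obtain ⟨a, l, m, r, hm, ha', hl, hb, hw⟩ := hcon c n h1 (hN.trans h2) hc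
      obtain ⟨c'', n'', g1, g2, g3⟩ := descend hS hm hE ha' hl hb (h4E.trans h2) hw
      refine ⟨c'', n'', g1, h2.trans g2, ?_, ?_⟩
      · have g4 : 2 ^ (E * c'') * 2 ^ E ≤ 2 ^ (E * (c + 1)) :=
          (Nat.mul_le_mul_left _ (h2E.trans h2)).trans g3
        rw [← pow_add] at g4
        have g5 := (Nat.pow_le_pow_iff_right (by norm_num : 1 < 2)).1 g4
        have g6 : E * (c'' + 1) ≤ E * (c + 1) := by rw [mul_add, mul_one]; exact g5
        have g7 := Nat.le_of_mul_le_mul_left g6 (by omega)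
        omega
      · calc 2 ^ (E * c'') * n₀ ^ (j + 1) = 2 ^ (E * c'') * n₀ * n₀ ^ j := by ring
          _ ≤ 2 ^ (E * c'') * n * n₀ ^ j := Nat.mul_le_mul_right _ (Nat.mul_le_mul_left _ h2)
          _ ≤ 2 ^ (E * (c + 1)) * n₀ ^ j := Nat.mul_le_mul_right _ g3
          _ = 2 ^ E * (2 ^ (E * c) * n₀ ^ j) := by rw [mul_add, pow_add, mul_one]; ring
          _ ≤ 2 ^ E * 2 ^ (E * (c₀ + j)) := Nat.mul_le_mul_left _ h4
          _ = 2 ^ (E * (c₀ + (j + 1))) := by rw [← pow_add]; congr 1; ring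
  obtain ⟨c, n, -, -, -, h4⟩ := iter (4 * E + 1)
  have h5 : n₀ ^ (4 * E) * n₀ ≤ n₀ ^ (4 * E) * 2 ^ (E * (4 * E + 1)) := by
    calc n₀ ^ (4 * E) * n₀ = 1 * n₀ ^ (4 * E + 1) := by rw [pow_succ, one_mul]
      _ ≤ 2 ^ (E * c) * n₀ ^ (4 * E + 1) := Nat.mul_le_mul_right _ Nat.one_le_two_pow
      _ ≤ 2 ^ (E * (c₀ + (4 * E + 1))) := h4
      _ = (2 ^ c₀) ^ E * 2 ^ (E * (4 * E + 1)) := by rw [← pow_mul, ← pow_add]; congr 1; ring
      _ ≤ (n₀ ^ 4) ^ E * 2 ^ (E * (4 * E + 1)) := Nat.mul_le_mul_right _ (Nat.pow_le_pow_left hstart E)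
      _ = n₀ ^ (4 * E) * 2 ^ (E * (4 * E + 1)) := by rw [← pow_mul]
  have h6 := Nat.le_of_mul_le_mul_left h5 (Nat.pow_pos hn₀pos)
  omega

end Pool.Agent.Helper31.BB6
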