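import Pool.Agent.Helper31.BB6.Sim
import Pool.Agent.Helper31.BB6.Window

/-!
# MP_8c0c42_lc: configurations of Antihydra with two counters
-/

set_option autoImplicit false

namespace Pool.Agent.Helper31.BB6

open Turing

/-- the configuration coded by the word `u q v`: tape `0^∞ u v 0^∞`, state `q`, head on the first symbol of `v 0^∞` -/
def cfgOf (u : List Bool) (q : Fin 6) (v : List Bool) : Cfg 6 :=
  ⟨some q, ListBlank.mk u.reverse, ListBlank.mk v⟩

/-- the pairs `(c, n)` for which `0^∞ 1^c 0 1^n 0^∞`, state `E`, head on the cell after the last `1`, is in `I` -/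
def pairs (I : Set (Cfg 6)) : Set (ℕ × ℕ) :=
  {p | cfgOf (List.replicate p.1 true ++ false :: List.replicate p.2 true) 4 [] ∈ I}

lemma cfgOf_eq (c n : ℕ) :
    cfgOf (List.replicate c true ++ false :: List.replicate n true) 4 [] = cfgA c n := by
  unfold cfgOf cfgA
  congr 2
  simp

lemma mem_pairs (I : Set (Cfg 6)) (c n : ℕ) : (c, n) ∈ pairs I ↔ cfgA c n ∈ I := by
  unfold pairs
  rw [Set.mem_ofPred_eq, cfgOf_eq]

lemma clo {I : Set (Cfg 6)} (hI : Invariant antihydra I) : Clo (fun c n => (c, n) ∈ pairs I) where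
  he c m hm h := (mem_pairs I _ _).2 (inv_even hI c m hm ((mem_pairs I _ _).1 h))
  ho c m hm h := (mem_pairs I _ _).2 (inv_odd hI c m hm ((mem_pairs I _ _).1 h))
  hh m hm h := inv_halt hI m hm ((mem_pairs I _ _).1 h)

lemma start_pair {I : Set (Cfg 6)} (hI : Invariant antihydra I) : (2, 8) ∈ pairs I :=
  (mem_pairs I _ _).2 (start_mem hI)

end Pool.Agent.Helper31.BB6
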