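import Mathlib

/-!
# MP_8c0c42_lc: the six state machine Antihydra, simulation lemmas
-/

set_option autoImplicit false

namespace Pool.Agent.Helper31.BB6

open Turing

/-- a transition table of an `n`-state, 2-symbol machine: `(q, a)` gives nothing (stop) or
`(b, d, q')`: write `b`, move right if `d = true` and left if `d = false`, go to `q'`
(`none` is the halt state). The blank symbol `0` is `false`. -/
def Table (n : ℕ) : Type := Fin n → Bool → Option (Bool × Bool × Option (Fin n))

/-- a configuration: state (`none` = halted), the tape to the left of the head (nearest cell first), the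
tape from the scanned cell to the right; both are blank from some point on -/
@[ext] structure Cfg (n : ℕ) where
  state : Option (Fin n)
  left : ListBlank Bool
  right : ListBlank Bool

/-- one step; `none` if the machine has stopped -/
def step {n : ℕ} (T : Table n) (c : Cfg n) : Option (Cfg n) :=
  match c.state with
  | none => none
  | some q =>
    match T q c.right.head with
    | none => none
    | some (b, true, q') => some ⟨q', c.left.cons b, c.right.tail⟩
    | some (b, false, q') => some ⟨q', c.left.tail, (c.right.tail.cons b).cons c.left.head⟩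

/-- write `b`, move right, go to the state `q` -/
def mR (b : Bool) (q : Fin 6) : Option (Bool × Bool × Option (Fin 6)) := some (b, true, some q)

/-- write `b`, move left, go to the state `q` -/
def mL (b : Bool) (q : Fin 6) : Option (Bool × Bool × Option (Fin 6)) := some (b, false, some q)

/-- write `b`, move right, halt -/
def mH (b : Bool) : Option (Bool × Bool × Option (Fin 6)) := some (b, true, none)

/-- the rows of the table, in the order `A0, A1, B0, B1, ..., F0, F1` -/
def rows : List (Option (Bool × Bool × Option (Fin 6))) :=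
  [mR true 1, mR true 0, mL false 2, mL true 4, mL true 3, mL true 2, mL true 0, mL false 1, mL true 5, mR true 4,
    mH true, mR false 0]

/-- the machine `1RB1RA_0LC1LE_1LD1LC_1LA0LB_1LF1RE_1RH0RA` (Antihydra), states `A, ..., F = 0, ..., 5` -/
def antihydra : Table 6 := fun q a => rows.getD (2 * q.val + a.toNat) none

lemma tA0 : antihydra 0 false = mR true 1 := rfl
lemma tA1 : antihydra 0 true = mR true 0 := rfl
lemma tB0 : antihydra 1 false = mL false 2 := rfl
lemma tB1 : antihydra 1 true = mL true 4 := rfl
lemma tC0 : antihydra 2 false = mL true 3 := rfl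
lemma tC1 : antihydra 2 true = mL true 2 := rfl
lemma tD0 : antihydra 3 false = mL true 0 := rfl
lemma tD1 : antihydra 3 true = mL false 1 := rfl
lemma tE0 : antihydra 4 false = mL true 5 := rfl
lemma tE1 : antihydra 4 true = mR true 4 := rfl
lemma tF0 : antihydra 5 false = mH true := rfl
lemma tF1 : antihydra 5 true = mR false 0 := rfl

/-- `I` is an inductive invariant proving that the machine does not halt on the blank tape: it contains the start
configuration, is closed under steps and contains no stopped configuration -/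
structure Invariant {n : ℕ} [NeZero n] (T : Table n) (I : Set (Cfg n)) : Prop where
  start : (⟨some 0, default, default⟩ : Cfg n) ∈ I
  closed : ∀ c ∈ I, ∀ c', step T c = some c' → c' ∈ I
  running : ∀ c ∈ I, step T c ≠ none

/-- the configuration `0^∞ 1^c 0 1^n` with the head on the blank cell to the right of it, in state `E` -/
def cfgA (c n : ℕ) : Cfg 6 :=
  ⟨some 4, ListBlank.mk (List.replicate n true ++ false :: List.replicate c true), ListBlank.mk []⟩

/-! ### blocks of ones -/

/-- `1^n X` -/
def ones (n : ℕ) (X : ListBlank Bool) : ListBlank Bool := (ListBlank.cons true)^[n] X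

/-- the blank half tape -/
def Z : ListBlank Bool := ListBlank.mk []

lemma ones_zero (X : ListBlank Bool) : ones 0 X = X := rfl

lemma ones_succ (n : ℕ) (X : ListBlank Bool) : ones (n + 1) X = (ones n X).cons true :=
  Function.iterate_succ_apply' _ _ _

lemma ones_succ' (n : ℕ) (X : ListBlank Bool) : ones (n + 1) X = ones n (X.cons true) :=
  Function.iterate_succ_apply _ _ _

lemma ones_add (m n : ℕ) (X : ListBlank Bool) : ones (m + n) X = ones m (ones n X) :=
  Function.iterate_add_apply _ _ _ _

lemma head_Z : Z.head = false := rfl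

lemma tail_Z : Z.tail = Z := rfl

lemma cons_Z : Z.cons false = Z := by
  have := ListBlank.cons_head_tail Z
  rwa [head_Z, tail_Z] at this

lemma mk_ones (n : ℕ) (l : List Bool) : ListBlank.mk (List.replicate n true ++ l) = ones n (ListBlank.mk l) := by
  induction n with
  | zero => rfl
  | succ n ih => rw [List.replicate_succ, List.cons_append, ← ListBlank.cons_mk, ih, ones_succ]

lemma cfgA_eq (c n : ℕ) : cfgA c n = ⟨some 4, ones n ((ones c Z).cons false), Z⟩ := by
  unfold cfgA
  rw [mk_ones, ← ListBlank.cons_mk]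
  have : ListBlank.mk (List.replicate c true) = ones c Z := by
    have := mk_ones c []
    rwa [List.append_nil] at this
  rw [this]
  rfl

/-! ### reachability -/

/-- `c` leads to `c'` -/
def Reach (c c' : Cfg 6) : Prop := Relation.ReflTransGen (fun a b => step antihydra a = some b) c c'

lemma Reach.refl' (c : Cfg 6) : Reach c c := Relation.ReflTransGen.refl

lemma Reach.trans' {a b c : Cfg 6} (h1 : Reach a b) (h2 : Reach b c) : Reach a c :=
  Relation.ReflTransGen.trans h1 h2

lemma Reach.head' {a b c : Cfg 6} (h1 : step antihydra a = some b) (h2 : Reach b c) : Reach a c :=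
  Relation.ReflTransGen.head h1 h2

lemma Reach.mem {I : Set (Cfg 6)} (hI : Invariant antihydra I) {a b : Cfg 6} (h : Reach a b) (ha : a ∈ I) : b ∈ I := by
  induction h with
  | refl => exact ha
  | tail _ h2 ih => exact hI.closed _ ih _ h2

/-! the twelve single steps -/

section steps
variable (L R : ListBlank Bool) (x : Bool)

lemma sA0 : step antihydra ⟨some 0, L, R.cons false⟩ = some ⟨some 1, L.cons true, R⟩ := by simp [step, tA0, mR]
lemma sA1 : step antihydra ⟨some 0, L, R.cons true⟩ = some ⟨some 0, L.cons true, R⟩ := by simp [step, tA1, mR]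
lemma sB0 : step antihydra ⟨some 1, L.cons x, R.cons false⟩ = some ⟨some 2, L, (R.cons false).cons x⟩ := by
  simp [step, tB0, mL]
lemma sB1 : step antihydra ⟨some 1, L.cons x, R.cons true⟩ = some ⟨some 4, L, (R.cons true).cons x⟩ := by
  simp [step, tB1, mL]
lemma sC0 : step antihydra ⟨some 2, L.cons x, R.cons false⟩ = some ⟨some 3, L, (R.cons true).cons x⟩ := by
  simp [step, tC0, mL]
lemma sC1 : step antihydra ⟨some 2, L.cons x, R.cons true⟩ = some ⟨some 2, L, (R.cons true).cons x⟩ := by
  simp [step, tC1, mL]
lemma sD0 : step antihydra ⟨some 3, L.cons x, R.cons false⟩ = some ⟨some 0, L, (R.cons true).cons x⟩ := by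
  simp [step, tD0, mL]
lemma sD1 : step antihydra ⟨some 3, L.cons x, R.cons true⟩ = some ⟨some 1, L, (R.cons false).cons x⟩ := by
  simp [step, tD1, mL]
lemma sE0 : step antihydra ⟨some 4, L.cons x, R.cons false⟩ = some ⟨some 5, L, (R.cons true).cons x⟩ := by
  simp [step, tE0, mL]
lemma sE1 : step antihydra ⟨some 4, L, R.cons true⟩ = some ⟨some 4, L.cons true, R⟩ := by simp [step, tE1, mR]
lemma sF0 : step antihydra ⟨some 5, L, R.cons false⟩ = some ⟨none, L.cons true, R⟩ := by simp [step, tF0, mH]
lemma sF1 : step antihydra ⟨some 5, L, R.cons true⟩ = some ⟨some 0, L.cons false, R⟩ := by simp [step, tF1, mR]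

end steps

/-! sweeps -/

lemma sweepA (n : ℕ) : ∀ (L X : ListBlank Bool), Reach ⟨some 0, L, ones n X⟩ ⟨some 0, ones n L, X⟩ := by
  induction n with
  | zero => intro L X; exact Reach.refl' _
  | succ n ih =>
    intro L X
    rw [ones_succ n X]
    refine Reach.head' (sA1 L (ones n X)) ?_
    rw [ones_succ' n L]
    exact ih _ _

lemma sweepE (n : ℕ) : ∀ (L X : ListBlank Bool), Reach ⟨some 4, L, ones n X⟩ ⟨some 4, ones n L, X⟩ := by
  induction n with
  | zero => intro L X; exact Reach.refl' _
  | succ n ih =>
    intro L X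
    rw [ones_succ n X]
    refine Reach.head' (sE1 L (ones n X)) ?_
    rw [ones_succ' n L]
    exact ih _ _

lemma sweepC (n : ℕ) : ∀ (L R : ListBlank Bool),
    Reach ⟨some 2, ones n (L.cons false), R.cons true⟩ ⟨some 2, L, (ones (n + 1) R).cons false⟩ := by
  induction n with
  | zero =>
    intro L R
    exact Reach.head' (sC1 L R false) (Reach.refl' _)
  | succ n ih =>
    intro L R
    rw [ones_succ n]
    refine Reach.head' (sC1 _ R true) ?_
    rw [ones_succ' (n + 1) R]
    exact ih L (R.cons true)

/-! ### the macro steps -/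

/-- the configuration `1^c 0 1^m` [head on 0, state E] `1^j` -/
def P (c m j : ℕ) : Cfg 6 := ⟨some 4, ones m ((ones c Z).cons false), (ones j Z).cons false⟩

lemma P_zero (c m : ℕ) : P c m 0 = cfgA c m := by
  rw [cfgA_eq, P, ones_zero, cons_Z]

/-- first part of every cycle -/
lemma front (m j : ℕ) (W : ListBlank Bool) :
    Reach (⟨some 4, ones (m + 1) W, (ones j Z).cons false⟩ : Cfg 6)
      ⟨some 2, ones m W, (ones (j + 2) Z).cons false⟩ := by
  rw [ones_succ m W]
  refine Reach.head' (sE0 _ _ true) ?_
  refine Reach.head' (sF1 _ _) ?_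
  rw [← ones_succ j Z]
  refine Reach.trans' (sweepA (j + 1) _ _) ?_
  rw [show Z = Z.cons false from cons_Z.symm]
  refine Reach.head' (sA0 _ _) ?_
  rw [cons_Z]
  rw [show Z = Z.cons false from cons_Z.symm]
  refine Reach.head' (sB0 _ _ true) ?_
  rw [cons_Z]
  exact sweepC (j + 1) (ones m W) Z

lemma cycle (c m j : ℕ) : Reach (P c (m + 4) j) (P c (m + 2) (j + 3)) := by
  unfold P
  refine Reach.trans' (front (m + 3) j _) ?_
  rw [ones_succ (m + 2)]
  refine Reach.head' (sC0 _ _ true) ?_
  rw [ones_succ (m + 1), ← ones_succ (j + 2)]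
  refine Reach.head' (sD1 _ _ true) ?_
  rw [ones_succ m]
  refine Reach.head' (sB1 _ _ true) ?_
  refine Reach.head' (sE1 _ _) ?_
  refine Reach.head' (sE1 _ _) ?_
  exact Reach.refl' _

lemma oddEnd (c j : ℕ) : Reach (P (c + 1) 3 j) (cfgA c (j + 6)) := by
  unfold P
  refine Reach.trans' (front 2 j _) ?_
  rw [ones_succ 1]
  refine Reach.head' (sC0 _ _ true) ?_
  rw [ones_succ 0, ← ones_succ (j + 2)]
  refine Reach.head' (sD1 _ _ true) ?_
  rw [ones_zero]
  refine Reach.head' (sB1 _ _ false) ?_
  rw [ones_succ c]
  refine Reach.head' (sE0 _ _ true) ?_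
  refine Reach.head' (sF1 _ _) ?_
  refine Reach.head' (sA1 _ _) ?_
  refine Reach.head' (sA1 _ _) ?_
  refine Reach.head' (sA0 _ _) ?_
  rw [ones_succ (j + 2)]
  refine Reach.head' (sB1 _ _ true) ?_
  rw [← ones_succ (j + 2), ← ones_succ (j + 3)]
  refine Reach.trans' (sweepE (j + 4) _ _) ?_
  rw [cfgA_eq, show j + 6 = (j + 4) + 2 from rfl, ones_add (j + 4) 2]
  exact Reach.refl' _

lemma oddHalt (j : ℕ) : Reach (P 0 3 j) ⟨none, Z.cons true, (((ones (j + 3) Z).cons false).cons true).cons true⟩ := by
  unfold P
  refine Reach.trans' (front 2 j _) ?_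
  rw [ones_succ 1]
  refine Reach.head' (sC0 _ _ true) ?_
  rw [ones_succ 0, ← ones_succ (j + 2)]
  refine Reach.head' (sD1 _ _ true) ?_
  rw [ones_zero]
  refine Reach.head' (sB1 _ _ false) ?_
  rw [ones_zero]
  have h : (⟨some 4, Z, (((ones (j + 2 + 1) Z).cons false).cons true).cons false⟩ : Cfg 6) =
      ⟨some 4, Z.cons false, (((ones (j + 2 + 1) Z).cons false).cons true).cons false⟩ := by rw [cons_Z]
  rw [h]
  refine Reach.head' (sE0 _ _ false) ?_
  refine Reach.head' (sF0 _ _) ?_
  exact Reach.refl' _

/-- from state `B` between the two blocks to the left end of the tape and back -/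
lemma backC (c : ℕ) (X : ListBlank Bool) :
    Reach (⟨some 1, ones c Z, X.cons false⟩ : Cfg 6) ⟨some 2, Z, (ones c (X.cons false)).cons false⟩ := by
  cases c with
  | zero =>
    rw [ones_zero, ones_zero]
    have h : (⟨some 1, Z, X.cons false⟩ : Cfg 6) = ⟨some 1, Z.cons false, X.cons false⟩ := by rw [cons_Z]
    rw [h]
    exact Reach.head' (sB0 _ _ false) (Reach.refl' _)
  | succ c =>
    rw [ones_succ c Z]
    refine Reach.head' (sB0 _ _ true) ?_
    have h : ones c Z = ones c (Z.cons false) := by rw [cons_Z]
    rw [h]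
    exact sweepC c Z (X.cons false)

lemma evenEnd (c j : ℕ) : Reach (P c 2 j) (cfgA (c + 2) (j + 5)) := by
  unfold P
  refine Reach.trans' (front 1 j _) ?_
  rw [ones_succ 0]
  refine Reach.head' (sC0 _ _ true) ?_
  rw [← ones_succ (j + 2), ones_zero]
  refine Reach.head' (sD1 _ _ false) ?_
  refine Reach.trans' (backC c _) ?_
  generalize hX : ((ones (j + 2 + 1) Z).cons false).cons false = X
  have hZ : (⟨some 2, Z, (ones c X).cons false⟩ : Cfg 6) = ⟨some 2, (Z.cons false).cons false, (ones c X).cons false⟩ := by
    rw [cons_Z, cons_Z]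
  rw [hZ]
  refine Reach.head' (sC0 _ _ false) ?_
  refine Reach.head' (sD0 _ _ false) ?_
  refine Reach.head' (sA0 _ _) ?_
  rw [← ones_succ c X, ← ones_succ (c + 1) X]
  rw [ones_succ (c + 1) X]
  refine Reach.head' (sB1 _ _ true) ?_
  rw [← ones_succ (c + 1) X, ← ones_succ (c + 2) X]
  refine Reach.trans' (sweepE (c + 3) _ _) ?_
  rw [← hX, ones_succ (c + 2) Z]
  refine Reach.head' (sE0 _ _ true) ?_
  refine Reach.head' (sF1 _ _) ?_
  refine Reach.head' (sA1 _ _) ?_
  refine Reach.head' (sA0 _ _) ?_
  rw [ones_succ (j + 2) Z]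
  refine Reach.head' (sB1 _ _ true) ?_
  rw [← ones_succ (j + 2) Z, ← ones_succ (j + 3) Z]
  refine Reach.trans' (sweepE (j + 4) _ _) ?_
  rw [cfgA_eq, show j + 5 = (j + 4) + 1 from rfl, ones_add (j + 4) 1]
  exact Reach.refl' _

lemma even (k : ℕ) : ∀ c j, Reach (P c (2 * k + 2) j) (cfgA (c + 2) (3 * k + 5 + j)) := by
  induction k with
  | zero =>
    intro c j
    have := evenEnd c j
    rw [show 3 * 0 + 5 + j = j + 5 by ring]
    exact this
  | succ k ih =>
    intro c j
    refine Reach.trans' (cycle c (2 * k) j) ?_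
    have := ih c (j + 3)
    rw [show 3 * (k + 1) + 5 + j = 3 * k + 5 + (j + 3) by ring]
    exact this

lemma odd (k : ℕ) : ∀ c j, Reach (P (c + 1) (2 * k + 3) j) (cfgA c (3 * k + 6 + j)) := by
  induction k with
  | zero =>
    intro c j
    have := oddEnd c j
    rw [show 3 * 0 + 6 + j = j + 6 by ring]
    exact this
  | succ k ih =>
    intro c j
    refine Reach.trans' (cycle (c + 1) (2 * k + 1) j) ?_
    have := ih c (j + 3)
    rw [show 3 * (k + 1) + 6 + j = 3 * k + 6 + (j + 3) by ring]
    exact this

lemma halt (k : ℕ) : ∀ j, ∃ L R, Reach (P 0 (2 * k + 3) j) ⟨none, L, R⟩ := by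
  induction k with
  | zero => intro j; exact ⟨_, _, oddHalt j⟩
  | succ k ih =>
    intro j
    obtain ⟨L, R, h⟩ := ih (j + 3)
    exact ⟨L, R, Reach.trans' (cycle 0 (2 * k + 1) j) h⟩

/-! ### consequences for an invariant -/

section inv
variable {I : Set (Cfg 6)} (hI : Invariant antihydra I)
include hI

lemma inv_even (c m : ℕ) (hm : 1 ≤ m) (h : cfgA c (2 * m) ∈ I) : cfgA (c + 2) (3 * m + 2) ∈ I := by
  obtain ⟨k, rfl⟩ : ∃ k, m = k + 1 := ⟨m - 1, by omega⟩
  have h1 := even k c 0
  rw [P_zero] at h1
  have h2 := h1.mem hI (by convert h using 2; ring)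
  convert h2 using 2; ring

lemma inv_odd (c m : ℕ) (hm : 1 ≤ m) (h : cfgA (c + 1) (2 * m + 1) ∈ I) : cfgA c (3 * m + 3) ∈ I := by
  obtain ⟨k, rfl⟩ : ∃ k, m = k + 1 := ⟨m - 1, by omega⟩
  have h1 := odd k c 0
  rw [P_zero] at h1
  have h2 := h1.mem hI (by convert h using 2; ring)
  convert h2 using 2; ring

lemma inv_halt (m : ℕ) (hm : 1 ≤ m) : cfgA 0 (2 * m + 1) ∉ I := by
  intro h
  obtain ⟨k, rfl⟩ : ∃ k, m = k + 1 := ⟨m - 1, by omega⟩
  obtain ⟨L, R, h1⟩ := halt k 0
  rw [P_zero] at h1
  have h2 := h1.mem hI (by convert h using 2; ring)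
  exact hI.running _ h2 rfl

end inv

/-! ### the start -/

/-- list version of `step` -/
def stepL (x : Option (Fin 6) × List Bool × List Bool) : Option (Option (Fin 6) × List Bool × List Bool) :=
  match x.1 with
  | none => none
  | some q =>
    match antihydra q x.2.2.headI with
    | none => none
    | some (b, true, q') => some (q', b :: x.2.1, x.2.2.tail)
    | some (b, false, q') => some (q', x.2.1.tail, x.2.1.headI :: b :: x.2.2.tail)

def iterL : ℕ → Option (Fin 6) × List Bool × List Bool → Option (Option (Fin 6) × List Bool × List Bool)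
  | 0, x => some x
  | n + 1, x => (stepL x).bind (iterL n)

lemma stepL_sound (x y : Option (Fin 6) × List Bool × List Bool) (h : stepL x = some y) :
    step antihydra ⟨x.1, ListBlank.mk x.2.1, ListBlank.mk x.2.2⟩ = some ⟨y.1, ListBlank.mk y.2.1, ListBlank.mk y.2.2⟩ := by
  obtain ⟨q, L, R⟩ := x
  unfold stepL at h
  unfold step
  simp only [ListBlank.head_mk] at *
  cases q with
  | none => simp at h
  | some q =>
    simp only at h ⊢
    rcases hT : antihydra q R.headI with _ | ⟨b, d, q'⟩
    · rw [hT] at h; simp at h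
    · rw [hT] at h
      cases d with
      | true =>
        simp only [Option.some.injEq] at h
        subst h
        simp [ListBlank.cons_mk, ListBlank.tail_mk]
      | false =>
        simp only [Option.some.injEq] at h
        subst h
        simp [ListBlank.cons_mk, ListBlank.tail_mk]

lemma iterL_sound (n : ℕ) : ∀ x y, iterL n x = some y →
    Reach ⟨x.1, ListBlank.mk x.2.1, ListBlank.mk x.2.2⟩ ⟨y.1, ListBlank.mk y.2.1, ListBlank.mk y.2.2⟩ := by
  induction n with
  | zero =>
    intro x y h
    simp only [iterL, Option.some.injEq] at h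
    subst h
    exact Reach.refl' _
  | succ n ih =>
    intro x y h
    simp only [iterL] at h
    rcases hx : stepL x with _ | z
    · rw [hx] at h; simp at h
    · rw [hx] at h
      simp only [Option.bind_some] at h
      exact Reach.head' (stepL_sound x z hx) (ih z y h)

lemma start_eq : iterL 58 (some 0, [], []) =
    some (some 4, List.replicate 8 true ++ false :: List.replicate 2 true, [false]) := by
  decide +kernel

lemma start_mem {I : Set (Cfg 6)} (hI : Invariant antihydra I) : cfgA 2 8 ∈ I := by
  have h := iterL_sound 58 _ _ start_eq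
  have h1 := h.mem hI hI.start
  have h2 : (ListBlank.mk [false] : ListBlank Bool) = ListBlank.mk [] := cons_Z
  simp only [h2] at h1
  exact h1

end Pool.Agent.Helper31.BB6
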