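import Pool.Agent.Helper31.BB6.Pairs

/-!
# MP_8c0c42_lc: no regular language of tape words is an inductive invariant of Antihydra
-/

set_option autoImplicit false

namespace Pool.Agent.Helper31.BB6

open Turing

/-- the word `u q v` over `{0, 1}` and the states -/
def word (u : List Bool) (q : Fin 6) (v : List Bool) : List (Bool ⊕ Fin 6) :=
  u.map Sum.inl ++ Sum.inr q :: v.map Sum.inl

/-- the language `L` describes the set `I` of configurations -/
def Describes (L : Language (Bool ⊕ Fin 6)) (I : Set (Cfg 6)) : Prop :=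
  ∀ u q v, word u q v ∈ L ↔ cfgOf u q v ∈ I

section
variable {I : Set (Cfg 6)} (hI : Invariant antihydra I)
include hI

lemma large (K : ℕ) : ∃ c n, (c, n) ∈ pairs I ∧ K * (c + 1) < n ∧ 8 ≤ n :=
  orbit_large (clo hI) (start_pair hI) K

/-! ### regular languages -/

theorem not_regular (L : Language (Bool ⊕ Fin 6)) (hL : L.IsRegular) (hd : Describes L I) : False := by
  obtain ⟨σ, _, M, rfl⟩ := hL
  classical
  set N := Fintype.card σ with hN
  obtain ⟨c, n, h1, h2, h3⟩ := large hI N
  have hn : N ≤ n := by
    have : N * 1 ≤ N * (c + 1) := Nat.mul_le_mul_left N (by omega)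
    omega
  -- states after `1^c 0 1^i`
  obtain ⟨s, hs⟩ : ∃ s : σ, s = M.evalFrom M.start ((List.replicate c true ++ [false]).map Sum.inl) := ⟨_, rfl⟩
  set f : ℕ → σ := fun i => M.evalFrom s ((List.replicate i true).map Sum.inl) with hf
  have hpig : ∃ a b : Fin (N + 1), a ≠ b ∧ f a = f b :=
    Fintype.exists_ne_map_eq_of_card_lt (fun i : Fin (N + 1) => f i) (by simp [hN])
  have hadd : ∀ i j, f (i + j) = M.evalFrom (f i) ((List.replicate j true).map Sum.inl) := by
    intro i j
    rw [hf]
    simp only
    rw [← DFA.evalFrom_of_append, ← List.map_append, List.replicate_append_replicate]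
  obtain ⟨i, p, hp, hip, hfi⟩ : ∃ i p, 1 ≤ p ∧ i + p ≤ N ∧ f (i + p) = f i := by
    obtain ⟨a, b, hab, hfab⟩ := hpig
    rcases lt_or_gt_of_ne (fun h => hab (Fin.ext h) : (a : ℕ) ≠ (b : ℕ)) with h | h
    · refine ⟨a, b - a, by omega, by omega, ?_⟩
      rw [show (a : ℕ) + (b - a) = b by omega]
      exact hfab.symm
    · refine ⟨b, a - b, by omega, by omega, ?_⟩
      rw [show (b : ℕ) + (a - b) = a by omega]
      exact hfab
  have hper : ∀ j, f (i + j * p) = f i := by
    intro j
    induction j with
    | zero => simp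
    | succ j ih =>
      rw [show i + (j + 1) * p = (i + j * p) + p by ring, hadd (i + j * p) p, ih, ← hadd i p, hfi]
  have hpump : ∀ j, f (n + j * p) = f n := by
    intro j
    rw [show n + j * p = (i + j * p) + (n - i) by omega, hadd (i + j * p), hper j, ← hadd i]
    congr 1
    omega
  have hmem : ∀ n', (c, n') ∈ pairs I ↔ M.evalFrom (f n') [Sum.inr 4] ∈ M.accept := by
    intro n'
    have h4 := hd (List.replicate c true ++ false :: List.replicate n' true) 4 []
    have h5 : word (List.replicate c true ++ false :: List.replicate n' true) 4 [] =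
        (List.replicate c true ++ [false]).map Sum.inl ++ ((List.replicate n' true).map Sum.inl ++ [Sum.inr 4]) := by
      unfold word
      simp
    unfold pairs
    rw [Set.mem_ofPred_eq, ← h4, h5, DFA.mem_accepts, DFA.eval, DFA.evalFrom_of_append, DFA.evalFrom_of_append, ← hs]
  refine no_geom (clo hI) c n 1 p odd_one hp (by omega) fun j => ?_
  rw [ge_one]
  exact (hmem _).2 (by rw [hpump j]; exact (hmem n).1 h1)

end

end Pool.Agent.Helper31.BB6
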